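import Pool.Agent.W78.GS.Basic
import Pool.Agent.W586.GA.Celle

/-! Project GS, imaginary quadratic part: the averaged cell bound for a completely multiplicative
function `g` with values `1`, `-1`, from the sieve bound with phases at the doubled frequency. -/

set_option autoImplicit false

namespace Pool.Agent.W168.GS

open Finset Filter
open Pool.Agent.H376R2.MR (FR)
open Pool.Agent.W78.GA (Qd nm ang ps ps_eq_exp nm_zero cellM mE)
open Pool.Agent.W586.GA (sum_inv_le)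
open Pool.Agent.W78.GS

variable {g : ℕ → ℤ} {t c : ℤ}

lemma abs_cos_le (x : ℝ) : |Real.cos x| ≤ (3 + Real.cos (2 * x)) / 4 := by
  rw [Real.cos_two_mul]
  rw [← sq_abs (Real.cos x)]
  nlinarith [sq_nonneg (|Real.cos x| - 1)]

/-- one cell -/
lemma cell_le (hg : Pm g) (hD : t ^ 2 < 4 * c) {Ap Bp M : ℕ → Prop} {E : ℕ} {ρ : ℕ → ℤ}
    {ϖ : ℕ → Qd t c}
    (hE : Pool.Agent.W78.GA.Ele t c Ap Bp M E ρ ϖ) (C : ℝ) (R H v : ℕ) (hR1 : 1 ≤ R) (k : ℤ)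
    (hs : ∀ φ : ℝ, ∑ m ∈ cellM M H v, FR R (((2 * k : ℤ) : ℝ) * ang (ϖ m) + φ) / (m : ℝ) ≤ C / v)
    (hC : 0 ≤ C) :
    ‖Pool.Agent.W78.GS.A.PE g M ϖ H v k‖ ≤
      (1 - 1 / (8 * (R : ℝ) ^ 2)) * mE M H v + C / (8 * (R : ℝ) ^ 3) * (1 / v) := by
  have hRpos : (0 : ℝ) < R := by exact_mod_cast hR1
  have hR1' : (1 : ℝ) ≤ R := by exact_mod_cast hR1
  have hm0 : 0 ≤ mE M H v := Finset.sum_nonneg fun _ _ => by positivity
  by_cases hk : Even k
  swap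
  · have h0 : Pool.Agent.W78.GS.A.PE g M ϖ H v k = 0 := by simp [Pool.Agent.W78.GS.A.PE, hk]
    rw [h0, norm_zero]
    have h1 : 1 / (8 * (R : ℝ) ^ 2) ≤ 1 := by
      rw [div_le_one (by positivity)]
      nlinarith
    have h2 : 0 ≤ (1 - 1 / (8 * (R : ℝ) ^ 2)) * mE M H v := mul_nonneg (by linarith) hm0
    have h3 : 0 ≤ C / (8 * (R : ℝ) ^ 3) * (1 / v) := by positivity
    linarith
  set PP0 : ℂ := ∑ m ∈ cellM M H v, (g m : ℂ) * ps k (ϖ m) / (m : ℂ) with hP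
  have hPE : ‖Pool.Agent.W78.GS.A.PE g M ϖ H v k‖ = ‖PP0‖ := by simp [Pool.Agent.W78.GS.A.PE, hk, hP]
  rw [hPE]
  obtain ⟨φ, hφ⟩ : ∃ φ : ℝ, ‖PP0‖ ≤
      ∑ m ∈ cellM M H v, |Real.cos (k * ang (ϖ m) + φ)| / (m : ℝ) := by
    refine ⟨-Complex.arg PP0, ?_⟩
    have h1 : (‖PP0‖ : ℂ) = PP0 * Complex.exp (-(Complex.arg PP0 : ℝ) * Complex.I) := by
      have h0 := Complex.norm_mul_exp_arg_mul_I PP0
      calc (‖PP0‖ : ℂ) = (‖PP0‖ : ℂ) * Complex.exp ((Complex.arg PP0 : ℝ) * Complex.I) *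
            Complex.exp (-(Complex.arg PP0 : ℝ) * Complex.I) := by
            rw [mul_assoc, ← Complex.exp_add]; simp
        _ = PP0 * Complex.exp (-(Complex.arg PP0 : ℝ) * Complex.I) := by rw [h0]
    have h2 : ‖PP0‖ = (PP0 * Complex.exp (-(Complex.arg PP0 : ℝ) * Complex.I)).re := by
      rw [← h1, Complex.ofReal_re]
    set A : ℝ := Complex.arg PP0 with hA
    rw [h2, hP]
    rw [Finset.sum_mul, Complex.re_sum]
    refine Finset.sum_le_sum fun m hm => ?_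
    have hM : M m := by
      classical
      unfold cellM at hm
      exact (Finset.mem_filter.mp hm).2.1
    have hmpos : m ≠ 0 := by
      obtain ⟨p, q, hp, hq, rfl, -, -⟩ := hE.fac m hM
      exact mul_ne_zero (hE.prA p hp).1.ne_zero (hE.prB q hq).1.ne_zero
    have hϖ : ϖ m ≠ 0 := by
      intro h0
      have := (hE.elt m hM).1
      rw [h0, nm_zero] at this
      exact hmpos this.symm
    have e0 : (g m : ℂ) * ps k (ϖ m) / (m : ℂ) * Complex.exp (-(A : ℝ) * Complex.I) =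
        ((g m : ℝ) : ℂ) * (ps k (ϖ m) / (m : ℂ) * Complex.exp (-(A : ℝ) * Complex.I)) := by
      push_cast
      ring
    have e1 : (ps k (ϖ m) / (m : ℂ) * Complex.exp (-(A : ℝ) * Complex.I)).re =
        Real.cos (k * ang (ϖ m) + -A) / (m : ℝ) := by
      rw [ps_eq_exp hD hϖ, div_mul_eq_mul_div, ← Complex.exp_add]
      have h3 : ((k * ang (ϖ m) : ℝ) : ℂ) * Complex.I + -(A : ℂ) * Complex.I =
          ((k * ang (ϖ m) + -A : ℝ) : ℂ) * Complex.I := by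
        push_cast; ring
      rw [h3, show ((m : ℕ) : ℂ) = (((m : ℕ) : ℝ) : ℂ) by push_cast; rfl, Complex.div_ofReal_re,
        Complex.exp_ofReal_mul_I_re]
    rw [e0, Complex.re_ofReal_mul, e1]
    have hgabs : |(g m : ℝ)| = 1 := by
      rcases hg.val m with h | h <;> rw [h] <;> norm_num
    have hm0' : (0 : ℝ) ≤ (m : ℝ) := Nat.cast_nonneg _
    calc (g m : ℝ) * (Real.cos (k * ang (ϖ m) + -A) / (m : ℝ))
        ≤ |(g m : ℝ) * (Real.cos (k * ang (ϖ m) + -A) / (m : ℝ))| := le_abs_self _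
      _ = |Real.cos (k * ang (ϖ m) + -A)| / (m : ℝ) := by
          rw [abs_mul, hgabs, one_mul, abs_div, abs_of_nonneg hm0']
  -- the doubled frequency
  set S2 : ℝ := ∑ m ∈ cellM M H v,
    Real.cos (((2 * k : ℤ) : ℝ) * ang (ϖ m) + 2 * φ) / (m : ℝ) with hS2
  have hdb : ‖PP0‖ ≤ 3 / 4 * mE M H v + 1 / 4 * S2 := by
    refine hφ.trans ?_
    rw [hS2]
    unfold mE
    rw [Finset.mul_sum, Finset.mul_sum, ← Finset.sum_add_distrib]
    refine Finset.sum_le_sum fun m _ => ?_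
    have h := abs_cos_le (k * ang (ϖ m) + φ)
    have e : 2 * (k * ang (ϖ m) + φ) = ((2 * k : ℤ) : ℝ) * ang (ϖ m) + 2 * φ := by
      push_cast; ring
    rw [e] at h
    have hm0' : (0 : ℝ) ≤ 1 / (m : ℝ) := by positivity
    have := mul_le_mul_of_nonneg_right h hm0'
    calc |Real.cos (k * ang (ϖ m) + φ)| / (m : ℝ)
        = |Real.cos (k * ang (ϖ m) + φ)| * (1 / (m : ℝ)) := by ring
      _ ≤ _ := this
      _ = _ := by ring
  have hs' := hs (2 * φ)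
  have hlow : R * mE M H v - 2 * (R : ℝ) ^ 3 * (mE M H v - S2) ≤
      ∑ m ∈ cellM M H v, FR R (((2 * k : ℤ) : ℝ) * ang (ϖ m) + 2 * φ) / (m : ℝ) := by
    rw [hS2]
    unfold mE
    rw [← Finset.sum_sub_distrib, Finset.mul_sum, Finset.mul_sum, ← Finset.sum_sub_distrib]
    refine Finset.sum_le_sum fun p _ => ?_
    have h := Pool.Agent.H970R2.X.xcell_FR R hR1 (((2 * k : ℤ) : ℝ) * ang (ϖ p) + 2 * φ)
    have hp0 : (0 : ℝ) ≤ 1 / (p : ℝ) := by positivity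
    have := mul_le_mul_of_nonneg_right h hp0
    calc R * (1 / (p : ℝ)) - 2 * (R : ℝ) ^ 3 *
          (1 / (p : ℝ) - Real.cos (((2 * k : ℤ) : ℝ) * ang (ϖ p) + 2 * φ) / (p : ℝ))
        = (R - 2 * (R : ℝ) ^ 3 * (1 - Real.cos (((2 * k : ℤ) : ℝ) * ang (ϖ p) + 2 * φ))) *
          (1 / (p : ℝ)) := by ring
      _ ≤ FR R (((2 * k : ℤ) : ℝ) * ang (ϖ p) + 2 * φ) * (1 / (p : ℝ)) := this
      _ = FR R (((2 * k : ℤ) : ℝ) * ang (ϖ p) + 2 * φ) / (p : ℝ) := by ring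
  have h1 : 8 * (R : ℝ) ^ 3 * ‖PP0‖ ≤ 8 * (R : ℝ) ^ 3 * mE M H v - R * mE M H v + C / v := by
    have h0 : 8 * (R : ℝ) ^ 3 * ‖PP0‖ ≤
        8 * (R : ℝ) ^ 3 * (3 / 4 * mE M H v + 1 / 4 * S2) :=
      mul_le_mul_of_nonneg_left hdb (by positivity)
    nlinarith
  have h2 : 8 * (R : ℝ) ^ 3 * ((1 - 1 / (8 * (R : ℝ) ^ 2)) * mE M H v +
      C / (8 * (R : ℝ) ^ 3) * (1 / v)) = 8 * (R : ℝ) ^ 3 * mE M H v - R * mE M H v + C / v := by
    have : (R : ℝ) ≠ 0 := hRpos.ne'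
    have e : C / (v : ℝ) = C * (1 / v) := by ring
    rw [e]
    field_simp
  rw [← h2] at h1
  exact le_of_mul_le_mul_left h1 (by positivity)

theorem celle_of (hg : Pm g) (hD : t ^ 2 < 4 * c) (hsele : Pool.Agent.W78.GA.S_SELE t c) :
    Pool.Agent.W78.GS.A.S_CELLE g t c := by
  intro Ap Bp M E ρ ϖ hE
  obtain ⟨C₁, hC₁, hsel⟩ := hsele Ap Bp M E ρ ϖ hE
  obtain ⟨c₀, hc₀, C, hrich⟩ := hE.rich
  obtain ⟨R, hR⟩ := exists_nat_ge (4 * C₁ / c₀ + 1)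
  have hR1' : (1 : ℝ) ≤ R := by
    have : 0 ≤ 4 * C₁ / c₀ := by positivity
    linarith
  have hR1 : 1 ≤ R := by exact_mod_cast hR1'
  have hRpos : (0 : ℝ) < R := by linarith
  have hRC : C₁ / (8 * (R : ℝ) ^ 3) / c₀ ≤ 1 / (32 * (R : ℝ) ^ 2) := by
    have h1 : 4 * C₁ / c₀ ≤ R := by linarith
    rw [div_le_iff₀ hc₀] at h1
    rw [div_div, div_le_div_iff₀ (by positivity) (by positivity)]
    have h2 : (32 * (R : ℝ) ^ 2) * C₁ ≤ (8 * (R : ℝ) ^ 2) * (R * c₀) := by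
      have := mul_le_mul_of_nonneg_left h1 (show 0 ≤ 8 * (R : ℝ) ^ 2 by positivity)
      linarith
    nlinarith
  set K : ℝ := C₁ / (8 * (R : ℝ) ^ 3) with hK
  have hK0 : 0 < K := by positivity
  -- size of W
  obtain ⟨Λ, hΛ⟩ := exists_nat_ge (Real.exp ((|C| + 32 * (R : ℝ) ^ 2 * K * (1 + |C| / c₀)) / c₀))
  have hΛ1 : (1 : ℝ) ≤ Λ := (Real.one_le_exp (by positivity)).trans hΛ
  have hΛpos : (0 : ℝ) < Λ := by linarith
  have hΛ1' : 1 ≤ Λ := by exact_mod_cast hΛ1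
  refine ⟨1 / (16 * (R : ℝ) ^ 2), by positivity, ?_, Λ, ?_⟩
  · rw [div_le_one (by positivity)]; nlinarith
  intro M' H hH
  obtain ⟨V₁, hV₁⟩ := hsel (M' + 1) H R hH hR1
  refine ⟨max V₁ (max H 1), fun v₀ v₁ hv₀ hv₁ k hk0 hk => ?_⟩
  have hvV : V₁ ≤ v₀ := le_trans (le_max_left _ _) hv₀
  have hvH : H ≤ v₀ := le_trans (le_trans (le_max_left _ _) (le_max_right _ _)) hv₀
  have hv1 : 1 ≤ v₀ := le_trans (le_trans (le_max_right _ _) (le_max_right _ _)) hv₀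
  have hv01 : v₀ ≤ v₁ := le_trans (Nat.le_mul_of_pos_left v₀ hΛ1') hv₁
  have hv0pos : (0 : ℝ) < v₀ := by exact_mod_cast hv1
  have hv1pos : (0 : ℝ) < v₁ := lt_of_lt_of_le hv0pos (by exact_mod_cast hv01)
  have hHpos : (0 : ℝ) < H := by exact_mod_cast hH
  have h2k : (2 * k : ℤ) ≠ 0 := mul_ne_zero two_ne_zero hk0
  have hcell : ∀ v ∈ Ico v₀ v₁, ‖Pool.Agent.W78.GS.A.PE g M ϖ H v k‖ ≤
      (1 - 1 / (8 * (R : ℝ) ^ 2)) * mE M H v + K * (1 / v) := by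
    intro v hv
    have hv2 : v₀ ≤ v := (Finset.mem_Ico.mp hv).1
    refine cell_le hg hD hE C₁ R H v hR1 k (fun φ => ?_) hC₁.le
    refine hV₁ v (hvV.trans hv2) (2 * k) h2k ?_ φ
    have hvr : (v₀ : ℝ) ≤ v := by exact_mod_cast hv2
    have hHv : (H : ℝ) ≤ v := by exact_mod_cast hvH.trans hv2
    have h1 : (1 : ℝ) ≤ (v : ℝ) / H := by rw [le_div_iff₀ hHpos]; linarith
    have h2 : (2 : ℝ) ≤ Real.exp ((v : ℝ) / H) := by
      have := Real.add_one_le_exp ((v : ℝ) / H)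
      linarith
    have h3 : |((2 * k : ℤ) : ℝ)| = 2 * |(k : ℝ)| := by
      push_cast
      rw [abs_mul, abs_of_pos (by norm_num : (0 : ℝ) < 2)]
    have h4 : Real.exp (M' * (v₀ : ℝ) / H) ≤ Real.exp (M' * (v : ℝ) / H) := by
      apply Real.exp_le_exp.mpr
      apply div_le_div_of_nonneg_right _ hHpos.le
      exact mul_le_mul_of_nonneg_left hvr (Nat.cast_nonneg _)
    have h5 : Real.exp (((M' + 1 : ℕ) : ℝ) * (v : ℝ) / H) =
        Real.exp ((v : ℝ) / H) * Real.exp (M' * (v : ℝ) / H) := by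
      rw [← Real.exp_add]
      congr 1
      push_cast
      ring
    rw [h3, h5]
    exact mul_le_mul h2 (hk.trans h4) (abs_nonneg _) (Real.exp_pos _).le
  set W : ℝ := ∑ v ∈ Ico v₀ v₁, mE M H v with hW
  set l : ℝ := Real.log ((v₁ : ℝ) / v₀) with hl
  have hWl : c₀ * l - C ≤ W := hrich H v₀ v₁ hH hvH hv01
  have hlΛ : Real.log Λ ≤ l := by
    rw [hl]
    apply Real.log_le_log hΛpos
    rw [le_div_iff₀ hv0pos]
    exact_mod_cast hv₁
  have hlogΛ : |C| + 32 * (R : ℝ) ^ 2 * K * (1 + |C| / c₀) ≤ c₀ * Real.log Λ := by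
    have h1 : (|C| + 32 * (R : ℝ) ^ 2 * K * (1 + |C| / c₀)) / c₀ ≤ Real.log Λ := by
      rw [Real.le_log_iff_exp_le hΛpos]; exact hΛ
    rw [div_le_iff₀ hc₀] at h1
    linarith
  have hCabs := le_abs_self C
  have hWbig : 32 * (R : ℝ) ^ 2 * K * (1 + |C| / c₀) ≤ W := by
    have : c₀ * Real.log Λ ≤ c₀ * l := mul_le_mul_of_nonneg_left hlΛ hc₀.le
    linarith
  have hlW : l ≤ (W + |C|) / c₀ := by
    rw [le_div_iff₀ hc₀]; linarith
  have hW0 : 0 ≤ W := Finset.sum_nonneg fun _ _ => Finset.sum_nonneg fun _ _ => by positivity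
  have hinv := sum_inv_le v₀ v₁ hv1 hv01
  calc ∑ v ∈ Ico v₀ v₁, ‖Pool.Agent.W78.GS.A.PE g M ϖ H v k‖
      ≤ ∑ v ∈ Ico v₀ v₁, ((1 - 1 / (8 * (R : ℝ) ^ 2)) * mE M H v + K * (1 / v)) :=
        Finset.sum_le_sum hcell
    _ = (1 - 1 / (8 * (R : ℝ) ^ 2)) * W + K * ∑ v ∈ Ico v₀ v₁, 1 / (v : ℝ) := by
        rw [Finset.sum_add_distrib, ← Finset.mul_sum, ← Finset.mul_sum]
    _ ≤ (1 - 1 / (8 * (R : ℝ) ^ 2)) * W + K * (1 + (W + |C|) / c₀) := by
        have : K * ∑ v ∈ Ico v₀ v₁, 1 / (v : ℝ) ≤ K * (1 + (W + |C|) / c₀) :=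
          mul_le_mul_of_nonneg_left (by linarith) hK0.le
        linarith
    _ ≤ (1 - 1 / (16 * (R : ℝ) ^ 2)) * W := by
        have e1 : K * (1 + (W + |C|) / c₀) = K * (1 + |C| / c₀) + K / c₀ * W := by
          field_simp
          ring
        have e2 : K * (1 + |C| / c₀) ≤ 1 / (32 * (R : ℝ) ^ 2) * W := by
          rw [one_div, inv_mul_eq_div, le_div_iff₀ (by positivity)]
          linarith
        have e3 : K / c₀ * W ≤ 1 / (32 * (R : ℝ) ^ 2) * W := mul_le_mul_of_nonneg_right hRC hW0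
        have e4 : 1 / (8 * (R : ℝ) ^ 2) * W = 1 / (16 * (R : ℝ) ^ 2) * W +
            (1 / (32 * (R : ℝ) ^ 2) * W + 1 / (32 * (R : ℝ) ^ 2) * W) := by
          field_simp
          ring
        have e5 : (1 - 1 / (8 * (R : ℝ) ^ 2)) * W = W - 1 / (8 * (R : ℝ) ^ 2) * W := by ring
        have e6 : (1 - 1 / (16 * (R : ℝ) ^ 2)) * W = W - 1 / (16 * (R : ℝ) ^ 2) * W := by ring
        rw [e1, e5, e6]
        linarith

end Pool.Agent.W168.GS
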